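import Pool.Agent.KS6_44.RB.RainbowGraph

namespace Pool.Agent.KS6_44.RB

open SimpleGraph

/-- Domination holds when the smaller number of colours divides the larger one. -/
theorem prob_le_of_dvd {V : Type} [Finite V] (G : SimpleGraph V) (c' c k : ℕ) (hc : 0 < c)
    (h : c' ∣ c) (t : ℝ) : prob G c' k t ≤ prob G c k t := by
  classical
  obtain ⟨q, rfl⟩ := h
  have hq : 0 < q := Nat.pos_of_mul_pos_right hc |> fun h => by
    rcases Nat.eq_zero_or_pos q with h0 | h0
    · subst h0; simp at hc
    · exact h0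
  have hc' : 0 < c' := by
    rcases Nat.eq_zero_or_pos c' with h0 | h0
    · subst h0; simp at hc
    · exact h0
  have : Fintype V := Fintype.ofFinite V
  have : Finite G.edgeSet := inferInstance
  have : Fintype G.edgeSet := Fintype.ofFinite _
  have hT : ∀ (χ : G.edgeSet → Fin c') (η : G.edgeSet → Fin q),
      T G χ k ≤ T G (fun e => finProdFinEquiv (χ e, η e)) k := by
    intro χ η
    apply Nat.card_le_card_of_injective (fun H : {H : G.Subgraph // IsRainbowTree G χ k H} =>
      (⟨H.1, H.2.1, H.2.2.1, fun e f he hf hef => H.2.2.2 e f he hf (by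
        have := finProdFinEquiv.injective hef
        exact congrArg Prod.fst this)⟩ :
        {H : G.Subgraph // IsRainbowTree G (fun e => finProdFinEquiv (χ e, η e)) k H}))
    intro H H' hHH
    apply Subtype.ext
    exact congrArg (fun z => z.1) hHH
  have hcard : Nat.card {χ : G.edgeSet → Fin c' // t ≤ (T G χ k : ℝ)} *
      Nat.card (G.edgeSet → Fin q) ≤
      Nat.card {χ : G.edgeSet → Fin (c' * q) // t ≤ (T G χ k : ℝ)} := by
    rw [← Nat.card_prod]
    apply Nat.card_le_card_of_injective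
      (fun z : {χ : G.edgeSet → Fin c' // t ≤ (T G χ k : ℝ)} × (G.edgeSet → Fin q) =>
        (⟨fun e => finProdFinEquiv (z.1.1 e, z.2 e),
          z.1.2.trans (by exact_mod_cast hT z.1.1 z.2)⟩ :
          {χ : G.edgeSet → Fin (c' * q) // t ≤ (T G χ k : ℝ)}))
    rintro ⟨⟨χ, hχ⟩, η⟩ ⟨⟨χ', hχ'⟩, η'⟩ hz
    have h1 : ∀ e, (χ e, η e) = (χ' e, η' e) := fun e =>
      finProdFinEquiv.injective (congrFun (congrArg (fun z => z.1) hz) e)
    have h2 : χ = χ' := funext fun e => congrArg Prod.fst (h1 e)
    have h3 : η = η' := funext fun e => congrArg Prod.snd (h1 e)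
    subst h2; subst h3; rfl
  have htot : Nat.card (G.edgeSet → Fin (c' * q)) =
      Nat.card (G.edgeSet → Fin c') * Nat.card (G.edgeSet → Fin q) := by
    simp only [Nat.card_eq_fintype_card, Fintype.card_fun, Fintype.card_fin, mul_pow]
  have p1 : 0 < Nat.card (G.edgeSet → Fin c') := by
    simp only [Nat.card_eq_fintype_card, Fintype.card_fun, Fintype.card_fin]; positivity
  have p2 : 0 < Nat.card (G.edgeSet → Fin q) := by
    simp only [Nat.card_eq_fintype_card, Fintype.card_fun, Fintype.card_fin]; positivity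
  unfold prob
  rw [htot, Nat.cast_mul]
  have p1' : (0 : ℝ) < (Nat.card (G.edgeSet → Fin c') : ℝ) := by exact_mod_cast p1
  have p2' : (0 : ℝ) < (Nat.card (G.edgeSet → Fin q) : ℝ) := by exact_mod_cast p2
  rw [div_le_div_iff₀ p1' (by positivity)]
  have h4 : (Nat.card {χ : G.edgeSet → Fin c' // t ≤ (T G χ k : ℝ)} : ℝ) *
      (Nat.card (G.edgeSet → Fin q) : ℝ) ≤
      (Nat.card {χ : G.edgeSet → Fin (c' * q) // t ≤ (T G χ k : ℝ)} : ℝ) := by
    exact_mod_cast hcard
  nlinarith

end Pool.Agent.KS6_44.RB
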