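import Pool.Agent.KS6_44.RB.Upper

/-!
The comparison of the number of rainbow trees with five vertices for `p ^ 2` and `c` colours.
-/

namespace Pool.Agent.KS6_44.RB

/-- quantitative concavity of the logarithm between two consecutive integers -/
lemma log_gap (a t : ℝ) (ha : 1 ≤ a) (h0 : 0 ≤ t) (h1 : t ≤ 1) :
    t * (1 - t) / (2 * (a + 1) ^ 2) ≤
      Real.log (a + t) - Real.log a - t * Real.log (1 + 1 / a) := by
  have ha0 : 0 < a := by linarith
  have hcc : ConcaveOn ℝ (Set.Icc (0 : ℝ) 1)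
      (fun s => Real.log (a + s) + s ^ 2 / (2 * (a + 1) ^ 2)) := by
    have hd : ∀ s : ℝ, 0 < s → HasDerivAt
        (fun s => Real.log (a + s) + s ^ 2 / (2 * (a + 1) ^ 2))
        (1 / (a + s) + s / (a + 1) ^ 2) s := by
      intro s hs
      have h1 : HasDerivAt (fun s => a + s) 1 s := by
        simpa using (hasDerivAt_id s).const_add a
      have h2 := h1.log (by positivity)
      have h3 : HasDerivAt (fun s : ℝ => s ^ 2 / (2 * (a + 1) ^ 2))
          (2 * s / (2 * (a + 1) ^ 2)) s := by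
        have := (hasDerivAt_pow 2 s).div_const (2 * (a + 1) ^ 2)
        simpa using this
      have h4 := h2.add h3
      have e : 1 / (a + s) + s / (a + 1) ^ 2 = 1 / (a + s) + 2 * s / (2 * (a + 1) ^ 2) := by
        rw [mul_div_mul_left _ _ (two_ne_zero)]
      rw [e]
      exact h4
    apply AntitoneOn.concaveOn_of_deriv (convex_Icc 0 1)
    · apply ContinuousOn.add
      · apply ContinuousOn.log (by fun_prop)
        intro s hs
        have := hs.1
        positivity
      · fun_prop
    · intro s hs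
      rw [interior_Icc] at hs
      exact (hd s hs.1).differentiableAt.differentiableWithinAt
    · intro s hs u hu hsu
      rw [interior_Icc] at hs hu
      rw [(hd s hs.1).deriv, (hd u hu.1).deriv]
      have hs0 := hs.1
      have hu0 := hu.1
      have e1 : 1 / (a + s) - 1 / (a + u) = (u - s) / ((a + s) * (a + u)) := by
        field_simp; ring
      have e2 : (u - s) / (a + 1) ^ 2 ≤ (u - s) / ((a + s) * (a + u)) := by
        apply div_le_div_of_nonneg_left (by linarith) (by positivity)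
        have := hs.2
        have := hu.2
        nlinarith
      have e3 : (u - s) / (a + 1) ^ 2 = u / (a + 1) ^ 2 - s / (a + 1) ^ 2 := by ring
      linarith
  have h2 := hcc.2 (Set.left_mem_Icc.mpr zero_le_one) (Set.right_mem_Icc.mpr zero_le_one)
    (by linarith : (0 : ℝ) ≤ 1 - t) h0 (by ring)
  simp only [smul_eq_mul, mul_zero, mul_one, zero_add, add_zero, ne_eq, OfNat.ofNat_ne_zero,
    not_false_eq_true, zero_pow, zero_div, one_pow] at h2
  have e4 : Real.log (1 + 1 / a) = Real.log (a + 1) - Real.log a := by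
    rw [← Real.log_div (by positivity) (by positivity)]
    congr 1; field_simp
  rw [e4]
  have e5 : t * (1 - t) / (2 * (a + 1) ^ 2) = t * (1 / (2 * (a + 1) ^ 2)) -
      t ^ 2 / (2 * (a + 1) ^ 2) := by ring
  rw [e5]
  nlinarith

/-- the main numerical comparison -/
lemma main_ineq (r m c a : ℕ) (hr : 0 < r) (ha : 0 < a) (har : a * r ≤ c) (hrc : r < c)
    (h : ((c - r : ℕ) : ℝ) * Real.log (c * (r + 1)) < m * (r * (Real.log (c / r) - Real.log a -
      (c / r - a) * Real.log (1 + 1 / (a : ℝ))))) :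
    (c.descFactorial r : ℝ) * (r + 1 : ℝ) ^ (c - r) *
      ((a : ℝ) ^ r * (1 + 1 / (a : ℝ)) ^ (c - a * r)) ^ m * (r : ℝ) ^ (r * m) <
      (r.factorial : ℝ) * (c : ℝ) ^ (r * m) := by
  have hr' : (0 : ℝ) < r := by exact_mod_cast hr
  have ha' : (0 : ℝ) < a := by exact_mod_cast ha
  have hc' : (0 : ℝ) < c := by exact_mod_cast (by omega : 0 < c)
  have hf : (0 : ℝ) < r.factorial := by exact_mod_cast r.factorial_pos
  have h1 : (c.descFactorial r : ℝ) ≤ r.factorial * (c : ℝ) ^ (c - r) := by
    rw [Nat.descFactorial_eq_factorial_mul_choose]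
    push_cast
    apply mul_le_mul_of_nonneg_left _ hf.le
    rw [← Nat.choose_symm hrc.le]
    exact_mod_cast Nat.choose_le_pow c (c - r)
  have h2 : ((c : ℝ) * (r + 1)) ^ (c - r) *
      ((a : ℝ) ^ r * (1 + 1 / (a : ℝ)) ^ (c - a * r)) ^ m * (r : ℝ) ^ (r * m) <
      (c : ℝ) ^ (r * m) := by
    rw [← Real.log_lt_log_iff (by positivity) (by positivity)]
    rw [Real.log_mul (by positivity) (by positivity), Real.log_mul (by positivity) (by positivity),
      Real.log_pow, Real.log_pow, Real.log_pow, Real.log_pow,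
      Real.log_mul (show ((a : ℝ) ^ r) ≠ 0 by positivity)
        (show ((1 + 1 / (a : ℝ)) ^ (c - a * r)) ≠ 0 by positivity), Real.log_pow, Real.log_pow,
      Nat.cast_sub har]
    rw [Real.log_div hc'.ne' hr'.ne'] at h
    push_cast
    have e : (m : ℝ) * (r * (Real.log c - Real.log r - Real.log a -
        (c / r - a) * Real.log (1 + 1 / (a : ℝ)))) =
        r * m * Real.log c - r * m * Real.log r - m * (r * Real.log a +
          (c - a * r) * Real.log (1 + 1 / (a : ℝ))) := by
      field_simp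
      ring
    rw [e] at h
    linarith
  calc _ ≤ (r.factorial * (c : ℝ) ^ (c - r)) * (r + 1 : ℝ) ^ (c - r) *
      ((a : ℝ) ^ r * (1 + 1 / (a : ℝ)) ^ (c - a * r)) ^ m * (r : ℝ) ^ (r * m) := by gcongr
    _ = r.factorial * (((c : ℝ) * (r + 1)) ^ (c - r) *
      ((a : ℝ) ^ r * (1 + 1 / (a : ℝ)) ^ (c - a * r)) ^ m * (r : ℝ) ^ (r * m)) := by
        rw [mul_pow (c : ℝ) ((r : ℝ) + 1) (c - r)]; ring
    _ < _ := mul_lt_mul_of_pos_left h2 hf

/-- failure of domination from a numerical inequality -/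
lemma fail_of (p : ℕ) [Fact p.Prime] (h5 : 5 ≤ p) (c a : ℕ) (ha : 0 < a)
    (har : a * p ^ 2 ≤ c) (hrc : p ^ 2 < c)
    (h : ((c - p ^ 2 : ℕ) : ℝ) * Real.log (c * ((p ^ 2 : ℕ) + 1)) <
      p * ((p ^ 2 : ℕ) * (Real.log (c / (p ^ 2 : ℕ)) - Real.log a -
      (c / (p ^ 2 : ℕ) - a) * Real.log (1 + 1 / (a : ℝ))))) :
    prob (Gr p) c 5 (t0 p : ℕ) < prob (Gr p) (p ^ 2) 5 (t0 p : ℕ) := by
  have hp0 : 0 < p := by omega
  have hr0 : 0 < p ^ 2 := by positivity
  have hC : Fintype.card (ZMod p × ZMod p) = p ^ 2 := by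
    rw [Fintype.card_prod, ZMod.card]; ring
  unfold prob
  rw [card_good h5, card_good h5, card_all, card_all]
  have hlo := good_lower (C := ZMod p × ZMod p) (F := ZMod p) hC
  have hup := good_upper_gen (C := ZMod p × ZMod p) (F := ZMod p) (c := c) a ha
    (by rw [hC]; omega) (by rw [hC]; exact har)
  rw [hC, ZMod.card] at hup
  have hm := main_ineq (p ^ 2) p c a hr0 ha har hrc h
  have hlo' : ((p ^ 2).factorial : ℝ) ≤
    (Nat.card {ψ : (ZMod p × ZMod p) × ZMod p → Fin (p ^ 2) // Good ψ} : ℝ) := by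
    exact_mod_cast hlo
  generalize hAA : (Nat.card {ψ : (ZMod p × ZMod p) × ZMod p → Fin c // Good ψ} : ℝ) = AA at hup ⊢
  generalize hBB : (Nat.card {ψ : (ZMod p × ZMod p) × ZMod p → Fin (p ^ 2) // Good ψ} : ℝ) = BB
    at hlo' ⊢
  have hc0 : (0 : ℝ) < c := by exact_mod_cast (by omega : 0 < c)
  have hr0' : (0 : ℝ) < ((p ^ 2 : ℕ) : ℝ) := by exact_mod_cast hr0
  rw [Nat.cast_pow c, Nat.cast_pow (p ^ 2)]
  rw [div_lt_div_iff₀ (by positivity) (by positivity)]
  calc AA * ((p ^ 2 : ℕ) : ℝ) ^ (p ^ 2 * p) ≤ _ * ((p ^ 2 : ℕ) : ℝ) ^ (p ^ 2 * p) :=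
        mul_le_mul_of_nonneg_right hup (by positivity)
    _ < ((p ^ 2).factorial : ℝ) * (c : ℝ) ^ (p ^ 2 * p) := hm
    _ ≤ BB * (c : ℝ) ^ (p ^ 2 * p) := mul_le_mul_of_nonneg_right hlo' (by positivity)

/-- For all large primes `p`, domination fails between `p ^ 2` and every number `c` of colours in
the given range. -/
theorem fail (A ε : ℝ) (hε : 0 < ε) : ∃ p0 : ℕ, 5 ≤ p0 ∧ ∀ p : ℕ, p0 ≤ p → ∀ _ : Fact p.Prime,
    ∀ c : ℕ, p ^ 2 < c → (c : ℝ) ≤ A * p ^ 2 →
      ((c : ℝ) ≤ (2 - ε) * p ^ 2 ∨ ∀ j : ℕ, ε * p ^ 2 ≤ |(c : ℝ) - j * p ^ 2|) →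
      prob (Gr p) c 5 (t0 p : ℕ) < prob (Gr p) (p ^ 2) 5 (t0 p : ℕ) := by
  set A' : ℝ := max A 2 with hA'
  have hA2 : (2 : ℝ) ≤ A' := le_max_right _ _
  set B : ℝ := 8 / ε + 2 * A' * (A' + 1) ^ 2 / ε ^ 2 with hB
  have hB0 : 0 < B := by positivity
  have hlogA : 0 ≤ Real.log (2 * A') := Real.log_nonneg (by linarith)
  set M : ℝ := B * (Real.log (2 * A') + 8) + 1 with hM
  have hM0 : 1 ≤ M := by
    have : 0 ≤ B * (Real.log (2 * A') + 8) := by positivity
    linarith
  refine ⟨⌈M ^ 2⌉₊ + 5, by omega, ?_⟩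
  intro p hp hpr c hc1 hc2 hc3
  have h5 : 5 ≤ p := by omega
  have hpM : M ^ 2 < p := by
    have h1 := Nat.le_ceil (M ^ 2)
    have h2 : ((⌈M ^ 2⌉₊ + 5 : ℕ) : ℝ) ≤ p := by exact_mod_cast hp
    push_cast at h2
    linarith
  set r : ℕ := p ^ 2 with hr
  have hr0 : 0 < r := by positivity
  have hr0' : (0 : ℝ) < r := by exact_mod_cast hr0
  have hrp : (r : ℝ) = (p : ℝ) ^ 2 := by rw [hr]; push_cast; ring
  rw [← hrp] at hc2 hc3
  set a : ℕ := c / r with ha
  have ha0 : 0 < a := Nat.div_pos hc1.le hr0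
  have har : a * r ≤ c := Nat.div_mul_le_self c r
  have har2 : c < (a + 1) * r := by
    have := Nat.lt_div_mul_add hr0 (a := c)
    calc c < c / r * r + r := this
      _ = (a + 1) * r := by rw [ha]; ring
  set t : ℝ := (c - a * r) / r with ht
  have hcr : (c : ℝ) / r = a + t := by rw [ht]; field_simp; ring
  have ht0 : 0 ≤ t := by
    apply div_nonneg _ hr0'.le
    have : ((a * r : ℕ) : ℝ) ≤ c := by exact_mod_cast har
    push_cast at this; linarith
  have ht1 : t < 1 := by
    rw [ht, div_lt_one hr0']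
    have : (c : ℝ) < (((a + 1) * r : ℕ) : ℝ) := by exact_mod_cast har2
    push_cast at this; linarith
  have ha1 : (1 : ℝ) ≤ a := by exact_mod_cast ha0
  have haA : (a : ℝ) ≤ A' := by
    have h1 : (a : ℝ) * r ≤ c := by exact_mod_cast har
    have h2 : (a : ℝ) * r ≤ A' * r := h1.trans (hc2.trans (by
      apply mul_le_mul_of_nonneg_right (le_max_left _ _) hr0'.le))
    exact le_of_mul_le_mul_right h2 hr0'
  have hb : (((c - r : ℕ) : ℝ)) = r * (a + t - 1) := by
    rw [Nat.cast_sub hc1.le, ← hcr]; field_simp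
  have hbpos : (0 : ℝ) < r * (a + t - 1) := by
    rw [← hb]; exact_mod_cast (by omega : 0 < c - r)
  have hat1 : 0 < (a : ℝ) + t - 1 := by
    by_contra hneg
    push Not at hneg
    have := mul_nonpos_of_nonneg_of_nonpos hr0'.le hneg
    linarith
  set δ : ℝ := t * (1 - t) / (2 * (a + 1) ^ 2) with hδ
  have hkey : (a : ℝ) + t - 1 ≤ B * δ := by
    have two : (∀ j : ℕ, ε * r ≤ |(c : ℝ) - j * r|) → (a : ℝ) + t - 1 ≤ B * δ := by
      intro hj
      have h1 := hj a
      have h2 := hj (a + 1)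
      have e1 : (c : ℝ) - a * r = t * r := by rw [ht]; field_simp
      have e2 : (c : ℝ) - ((a + 1 : ℕ) : ℝ) * r = -((1 - t) * r) := by
        push_cast; linear_combination e1
      rw [e1, abs_of_nonneg (by positivity)] at h1
      rw [e2, abs_neg, abs_of_nonneg (mul_nonneg (by linarith) hr0'.le)] at h2
      have h3 : ε ≤ t := le_of_mul_le_mul_right h1 hr0'
      have h4 : ε ≤ 1 - t := le_of_mul_le_mul_right h2 hr0'
      have h5 : (a : ℝ) + t - 1 ≤ A' := by linarith
      have h6 : ε ^ 2 / (2 * (A' + 1) ^ 2) ≤ δ := by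
        rw [hδ]
        apply div_le_div₀ (mul_nonneg ht0 (by linarith)) _ (by positivity)
        · apply mul_le_mul_of_nonneg_left _ (by norm_num)
          exact pow_le_pow_left₀ (by linarith) (by linarith) 2
        · rw [pow_two]
          exact mul_le_mul h3 h4 hε.le ht0
      calc (a : ℝ) + t - 1 ≤ A' := h5
        _ = (2 * A' * (A' + 1) ^ 2 / ε ^ 2) * (ε ^ 2 / (2 * (A' + 1) ^ 2)) := by field_simp
        _ ≤ B * δ := by
            apply mul_le_mul _ h6 (by positivity) hB0.le
            rw [hB]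
            have : 0 ≤ 8 / ε := by positivity
            linarith
    rcases hc3 with h1 | h1
    · by_cases ha2 : a = 1
      · have e1 : (c : ℝ) = (1 + t) * r := by
          have := hcr
          rw [ha2] at this
          field_simp at this
          push_cast at this
          linarith
        rw [e1] at h1
        have h2 : 1 + t ≤ 2 - ε := le_of_mul_le_mul_right h1 hr0'
        rw [hδ, ha2]
        push_cast
        have h3 : t ≤ (8 / ε) * (t * ε / 8) := by
          have : (8 / ε) * (t * ε / 8) = t := by field_simp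
          rw [this]
        have h4 : t * ε / 8 ≤ t * (1 - t) / (2 * (1 + 1) ^ 2) := by
          have : (2 * (1 + 1) ^ 2 : ℝ) = 8 := by norm_num
          rw [this]
          have : t * ε ≤ t * (1 - t) := mul_le_mul_of_nonneg_left (by linarith) ht0
          linarith
        have h5 : (8 / ε) * (t * ε / 8) ≤ B * (t * (1 - t) / (2 * (1 + 1) ^ 2)) := by
          apply mul_le_mul _ h4 (by positivity) hB0.le
          rw [hB]
          have : 0 ≤ 2 * A' * (A' + 1) ^ 2 / ε ^ 2 := by positivity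
          linarith
        linarith
      · exfalso
        have h2 : (2 : ℝ) ≤ a := by exact_mod_cast (by omega : 2 ≤ a)
        have h3 : (a : ℝ) * r ≤ c := by exact_mod_cast har
        nlinarith
    · exact two h1
  have hδ0 : 0 < δ := by
    by_contra hneg
    push Not at hneg
    have := mul_nonpos_of_nonneg_of_nonpos hB0.le hneg
    linarith
  have hgap := log_gap a t ha1 ht0 ht1.le
  have hp0' : (0 : ℝ) < p := by exact_mod_cast (by omega : 0 < p)
  -- the logarithm
  have hlog : B * Real.log (c * (r + 1)) < p := by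
    have h1 : (c : ℝ) * (r + 1) ≤ (2 * A') * (p : ℝ) ^ 4 := by
      have hc4 : (c : ℝ) ≤ A' * r := hc2.trans
        (mul_le_mul_of_nonneg_right (le_max_left _ _) hr0'.le)
      have hr1 : (1 : ℝ) ≤ r := by exact_mod_cast hr0
      calc (c : ℝ) * (r + 1) ≤ (A' * r) * (r + r) := by
            apply mul_le_mul hc4 (by linarith) (by positivity) (by positivity)
        _ = (2 * A') * (p : ℝ) ^ 4 := by rw [hrp]; ring
    have hc0 : (0 : ℝ) < c := by exact_mod_cast (by omega : 0 < c)
    have h2 : Real.log (c * (r + 1)) ≤ Real.log (2 * A') + 4 * Real.log p := by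
      calc Real.log (c * (r + 1)) ≤ Real.log ((2 * A') * (p : ℝ) ^ 4) :=
            Real.log_le_log (by positivity) h1
        _ = _ := by
            rw [Real.log_mul (by positivity) (by positivity), Real.log_pow]; push_cast; ring
    have h3 : Real.log p ≤ 2 * Real.sqrt p := by
      have e : Real.log p = 2 * Real.log (Real.sqrt p) := by
        rw [Real.log_sqrt hp0'.le]; ring
      have h4 := Real.log_le_sub_one_of_pos (Real.sqrt_pos.mpr hp0')
      rw [e]; linarith
    have hsM : M < Real.sqrt p := Real.lt_sqrt_of_sq_lt hpM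
    have hss : Real.sqrt p * Real.sqrt p = p := Real.mul_self_sqrt hp0'.le
    have hs1 : 1 ≤ Real.sqrt p := by linarith
    calc B * Real.log (c * (r + 1)) ≤ B * (Real.log (2 * A') + 8 * Real.sqrt p) := by
          apply mul_le_mul_of_nonneg_left _ hB0.le; linarith
      _ ≤ B * ((Real.log (2 * A') + 8) * Real.sqrt p) := by
          apply mul_le_mul_of_nonneg_left _ hB0.le
          nlinarith
      _ < Real.sqrt p * Real.sqrt p := by
          rw [← mul_assoc]
          apply mul_lt_mul_of_pos_right _ (by linarith)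
          linarith
      _ = p := hss
  have hlog0 : 0 ≤ Real.log (c * (r + 1)) := by
    apply Real.log_nonneg
    have hc0 : (1 : ℝ) ≤ c := by exact_mod_cast (by omega : 1 ≤ c)
    nlinarith
  apply fail_of p h5 c a ha0 har hc1
  rw [← hr, hb, hcr]
  have e2 : (a : ℝ) + t - a = t := by ring
  rw [e2]
  calc (r : ℝ) * (a + t - 1) * Real.log (c * (r + 1))
      ≤ r * (B * δ) * Real.log (c * (r + 1)) := by gcongr
    _ = (r * δ) * (B * Real.log (c * (r + 1))) := by ring
    _ < (r * δ) * p := mul_lt_mul_of_pos_left hlog (by positivity)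
    _ = p * (r * δ) := by ring
    _ ≤ _ := by gcongr

end Pool.Agent.KS6_44.RB
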