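import Mathlib

/-!
The incidence graph of the affine plane over `ZMod p` without the vertical lines, and its
trees with five vertices.
-/

namespace Pool.Agent.KS6_44.RB

open SimpleGraph

/-- `H` is a rainbow tree with exactly `k` vertices, for the edge colouring `χ` of `G`. -/
def IsRainbowTree {V : Type} (G : SimpleGraph V) {c : ℕ} (χ : G.edgeSet → Fin c) (k : ℕ)
    (H : G.Subgraph) : Prop :=
  H.coe.IsTree ∧ Nat.card H.verts = k ∧
    ∀ e f : G.edgeSet, e.1 ∈ H.edgeSet → f.1 ∈ H.edgeSet → χ e = χ f → e = f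

/-- The number of rainbow trees with `k` vertices. -/
noncomputable def T {V : Type} (G : SimpleGraph V) {c : ℕ} (χ : G.edgeSet → Fin c) (k : ℕ) : ℕ :=
  Nat.card {H : G.Subgraph // IsRainbowTree G χ k H}

/-- The probability, for a uniform random `c`-colouring of the edges of `G`, that the number of
rainbow trees with `k` vertices is at least `t`. -/
noncomputable def prob {V : Type} (G : SimpleGraph V) (c k : ℕ) (t : ℝ) : ℝ :=
  (Nat.card {χ : G.edgeSet → Fin c // t ≤ (T G χ k : ℝ)} : ℝ) /
    (Nat.card (G.edgeSet → Fin c) : ℝ)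

section

variable (p : ℕ) [hp : Fact p.Prime]

/-- Points on the left, lines `y = m x + s` (written `(m, s)`) on the right. -/
abbrev VV : Type := (ZMod p × ZMod p) ⊕ (ZMod p × ZMod p)

/-- incidence -/
def inc : VV p → VV p → Prop
  | Sum.inl P, Sum.inr L => P.2 = L.1 * P.1 + L.2
  | Sum.inr L, Sum.inl P => P.2 = L.1 * P.1 + L.2
  | _, _ => False

/-- The incidence graph of points and non-vertical lines of the affine plane over `ZMod p`. -/
def Gr : SimpleGraph (VV p) where
  Adj := inc p
  symm := ⟨by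
    rintro (P | P) (L | L) h
    · exact h
    · exact h
    · exact h
    · exact h⟩
  loopless := ⟨by
    rintro (P | P) h
    · exact h
    · exact h⟩

variable {p}

@[simp] lemma adj_ll (P Q : ZMod p × ZMod p) : (Gr p).Adj (Sum.inl P) (Sum.inl Q) ↔ False :=
  Iff.rfl
@[simp] lemma adj_rr (P Q : ZMod p × ZMod p) : (Gr p).Adj (Sum.inr P) (Sum.inr Q) ↔ False :=
  Iff.rfl
@[simp] lemma adj_lr (P L : ZMod p × ZMod p) :
    (Gr p).Adj (Sum.inl P) (Sum.inr L) ↔ P.2 = L.1 * P.1 + L.2 := Iff.rfl
@[simp] lemma adj_rl (P L : ZMod p × ZMod p) :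
    (Gr p).Adj (Sum.inr L) (Sum.inl P) ↔ P.2 = L.1 * P.1 + L.2 := Iff.rfl

/-- the point of the edge with class `(a, m)` and index `s` -/
def pt (e : (ZMod p × ZMod p) × ZMod p) : VV p := Sum.inl (e.1.1, e.1.2 * e.1.1 + e.2)

/-- the line of the edge with class `(a, m)` and index `s` -/
def ln (e : (ZMod p × ZMod p) × ZMod p) : VV p := Sum.inr (e.1.2, e.2)

lemma adj_pt_ln (e : (ZMod p × ZMod p) × ZMod p) : (Gr p).Adj (pt e) (ln e) := by
  simp [pt, ln]

/-- the edge with class `(a, m)` and index `s` -/
def edge (e : (ZMod p × ZMod p) × ZMod p) : (Gr p).edgeSet := ⟨s(pt e, ln e), adj_pt_ln e⟩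

lemma edge_inj : Function.Injective (edge (p := p)) := by
  rintro ⟨⟨a, m⟩, s⟩ ⟨⟨a', m'⟩, s'⟩ h
  have h' := congrArg Subtype.val h
  simp only [edge, pt, ln, Sym2.eq_iff, Sum.inl.injEq, Sum.inr.injEq, Prod.mk.injEq, reduceCtorEq,
    and_false, or_false] at h'
  obtain ⟨⟨h1, h2⟩, h3, h4⟩ := h'
  subst h1; subst h3; subst h4; rfl

lemma edge_surj : Function.Surjective (edge (p := p)) := by
  rintro ⟨e, he⟩
  induction e using Sym2.ind with
  | _ x y =>
    rw [mem_edgeSet] at he
    rcases x with P | L <;> rcases y with Q | M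
    · exact absurd he (by simp)
    · refine ⟨((P.1, M.1), M.2), ?_⟩
      apply Subtype.ext
      simp only [adj_lr] at he
      simp [edge, pt, ln, ← he]
    · refine ⟨((Q.1, L.1), L.2), ?_⟩
      apply Subtype.ext
      simp only [adj_rl] at he
      simp [edge, pt, ln, ← he, Sym2.eq_swap]
    · exact absurd he (by simp)

/-- the parametrisation of the edges -/
noncomputable def edgeEquiv : (ZMod p × ZMod p) × ZMod p ≃ (Gr p).edgeSet :=
  Equiv.ofBijective edge ⟨edge_inj, edge_surj⟩

/-- crossing an edge out of a two-element set inside a connected subgraph -/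
lemma exists_cross {V : Type} {G : SimpleGraph V} (H : G.Subgraph) (hH : H.coe.Connected)
    {x y u v : V} (hu : u ∈ H.verts) (hv : v ∈ H.verts) (hux : u = x) (hv1 : v ≠ x) (hv2 : v ≠ y) :
    ∃ a b, (a = x ∨ a = y) ∧ b ≠ x ∧ b ≠ y ∧ b ∈ H.verts ∧ G.Adj a b := by
  obtain ⟨w⟩ := hH.preconnected ⟨u, hu⟩ ⟨v, hv⟩
  obtain ⟨d, _, h1, h2⟩ := w.exists_boundary_dart {z | z.1 = x ∨ z.1 = y} (Or.inl hux)
    (by rintro (h | h)
        · exact hv1 h
        · exact hv2 h)
  refine ⟨d.fst.1, d.snd.1, h1, fun h => h2 (Or.inl h), fun h => h2 (Or.inr h), d.snd.2, ?_⟩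
  have := d.adj
  exact H.adj_sub this

/-- Two different edges of the same class never lie in a connected subgraph with five vertices. -/
lemma same_class (H : (Gr p).Subgraph) (hH : H.coe.Connected) (hc : Nat.card H.verts = 5)
    {e f : (ZMod p × ZMod p) × ZMod p} (hcl : e.1 = f.1) (he : (edge e).1 ∈ H.edgeSet)
    (hf : (edge f).1 ∈ H.edgeSet) : e = f := by
  by_contra hne
  obtain ⟨⟨a, m⟩, s⟩ := e
  obtain ⟨⟨a', m'⟩, s'⟩ := f
  simp only [Prod.mk.injEq] at hcl
  obtain ⟨rfl, rfl⟩ := hcl
  have hs : s ≠ s' := by rintro rfl; exact hne rfl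
  set P : VV p := Sum.inl (a, m * a + s) with hP
  set P' : VV p := Sum.inl (a, m * a + s') with hP'
  set L : VV p := Sum.inr (m, s) with hL
  set L' : VV p := Sum.inr (m, s') with hL'
  have he' : H.Adj P L := he
  have hf' : H.Adj P' L' := hf
  have hPv : P ∈ H.verts := he'.fst_mem
  have hLv : L ∈ H.verts := he'.snd_mem
  have hPv' : P' ∈ H.verts := hf'.fst_mem
  have hLv' : L' ∈ H.verts := hf'.snd_mem
  have n1 : P ≠ P' := by simp [hP, hP', hs]
  have n2 : P ≠ L := by simp [hP, hL]
  have n3 : P ≠ L' := by simp [hP, hL']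
  have n4 : P' ≠ L := by simp [hP', hL]
  have n5 : P' ≠ L' := by simp [hP', hL']
  have n6 : L ≠ L' := by simp [hL, hL', hs]
  obtain ⟨x, y, hx, y1, y2, hyv, hxy⟩ := exists_cross H hH (x := P) (y := L) hPv hPv' rfl n1.symm n4
  obtain ⟨x', y', hx', y1', y2', hyv', hxy'⟩ :=
    exists_cross H hH (x := P') (y := L') hPv' hPv rfl n1 n3
  -- `y` is a fifth vertex
  have hy3 : y ≠ P' := by
    rintro rfl
    rcases hx with rfl | rfl
    · simp [hP, hP'] at hxy
    · simp only [hL, hP', adj_rl, add_right_inj] at hxy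
      exact hs hxy.symm
  have hy4 : y ≠ L' := by
    rintro rfl
    rcases hx with rfl | rfl
    · simp only [hP, hL', adj_lr, add_right_inj] at hxy
      exact hs hxy
    · simp [hL, hL'] at hxy
  have hy3' : y' ≠ P := by
    rintro rfl
    rcases hx' with rfl | rfl
    · simp [hP, hP'] at hxy'
    · simp only [hL', hP, adj_rl, add_right_inj] at hxy'
      exact hs hxy'
  have hy4' : y' ≠ L := by
    rintro rfl
    rcases hx' with rfl | rfl
    · simp only [hP', hL, adj_lr, add_right_inj] at hxy'
      exact hs hxy'.symm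
    · simp [hL, hL'] at hxy'
  have hyy : y = y' := by
    by_contra hyy
    have hfin : (H.verts).Finite := Set.toFinite _
    have hsub : (({P, L, P', L', y, y'} : Finset (VV p)) : Set (VV p)) ⊆ H.verts := by
      intro z hz
      simp only [Finset.coe_insert, Finset.coe_singleton, Set.mem_insert_iff,
        Set.mem_singleton_iff] at hz
      rcases hz with rfl | rfl | rfl | rfl | rfl | rfl <;> assumption
    have h6 : ({P, L, P', L', y, y'} : Finset (VV p)).card = 6 := by
      rw [Finset.card_insert_of_notMem, Finset.card_insert_of_notMem,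
        Finset.card_insert_of_notMem, Finset.card_insert_of_notMem,
        Finset.card_insert_of_notMem, Finset.card_singleton]
      · simpa using hyy
      · simp only [Finset.mem_insert, Finset.mem_singleton, not_or]
        exact ⟨hy4.symm, y2'.symm⟩
      · simp only [Finset.mem_insert, Finset.mem_singleton, not_or]
        exact ⟨n5, hy3.symm, y1'.symm⟩
      · simp only [Finset.mem_insert, Finset.mem_singleton, not_or]
        exact ⟨n4.symm, n6, y2.symm, hy4'.symm⟩
      · simp only [Finset.mem_insert, Finset.mem_singleton, not_or]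
        exact ⟨n2, n1, n3, y1.symm, hy3'.symm⟩
    have h7 := Set.ncard_le_ncard hsub hfin
    rw [Set.ncard_coe_finset, h6, ← Nat.card_coe_set_eq, hc] at h7
    omega
  subst hyy
  rcases y with Y | Y
  · have hxL : x = L := by
      rcases hx with rfl | rfl
      · simp [hP] at hxy
      · rfl
    have hxL' : x' = L' := by
      rcases hx' with rfl | rfl
      · simp [hP'] at hxy'
      · rfl
    subst hxL; subst hxL'
    simp only [hL, hL', adj_rl] at hxy hxy'
    rw [hxy, add_right_inj] at hxy'
    exact hs hxy'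
  · have hxL : x = P := by
      rcases hx with rfl | rfl
      · rfl
      · simp [hL] at hxy
    have hxL' : x' = P' := by
      rcases hx' with rfl | rfl
      · rfl
      · simp [hL'] at hxy'
    subst hxL; subst hxL'
    simp only [hP, hP', adj_lr] at hxy hxy'
    rw [← hxy', add_right_inj] at hxy
    exact hs hxy

end

end Pool.Agent.KS6_44.RB
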