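import Pool.Agent.KS6_44.RB.RainbowCount

/-!
An upper bound for the number of colourings whose classes have pairwise disjoint colour sets,
for any number of colours.
-/

namespace Pool.Agent.KS6_44.RB

open Finset

/-- tangent line bound for the logarithm at integers, in multiplicative form -/
lemma nat_le_pow (a n : ℕ) (ha : 0 < a) : (n : ℝ) ≤ a * (1 + 1 / (a : ℝ)) ^ ((n : ℤ) - a) := by
  have ha' : (0 : ℝ) < a := by exact_mod_cast ha
  rcases Nat.lt_or_ge n a with h | h
  · obtain ⟨m, rfl⟩ : ∃ m, a = n + m := ⟨a - n, by omega⟩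
    have e : ((n : ℤ) - ((n + m : ℕ) : ℤ)) = -(m : ℤ) := by push_cast; ring
    rw [e, zpow_neg, zpow_natCast]
    set A : ℝ := ((n + m : ℕ) : ℝ) with hA
    have hAn : (n : ℝ) = A - m := by rw [hA]; push_cast; ring
    have h1 : 1 + 1 / A = (A + 1) / A := by field_simp
    have h2 : ((1 + 1 / A) ^ m)⁻¹ = (1 + (-(1 / (A + 1)))) ^ m := by
      rw [h1, ← inv_pow, inv_div]; congr 1; field_simp; ring
    rw [h2]
    have h3 : -2 ≤ -(1 / (A + 1)) := by
      have : 1 / (A + 1) ≤ 1 := by
        rw [div_le_one (by linarith)]; linarith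
      linarith
    have h4 := one_add_mul_le_pow h3 m
    have h5 : (1 : ℝ) / (A + 1) ≤ 1 / A := one_div_le_one_div_of_le ha' (by linarith)
    have hm : (0 : ℝ) ≤ m := Nat.cast_nonneg _
    calc (n : ℝ) = A * (1 - m * (1 / A)) := by rw [hAn]; field_simp
      _ ≤ A * (1 + m * (-(1 / (A + 1)))) := by
        apply mul_le_mul_of_nonneg_left _ ha'.le
        nlinarith
      _ ≤ _ := mul_le_mul_of_nonneg_left h4 ha'.le
  · obtain ⟨m, rfl⟩ : ∃ m, n = a + m := ⟨n - a, by omega⟩
    have e : (((a + m : ℕ) : ℤ) - (a : ℤ)) = (m : ℤ) := by push_cast; ring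
    rw [e, zpow_natCast]
    have h3 : (-2 : ℝ) ≤ 1 / a := by
      have : (0 : ℝ) ≤ 1 / a := by positivity
      linarith
    have h4 := one_add_mul_le_pow h3 m
    calc ((a + m : ℕ) : ℝ) = a * (1 + m * (1 / (a : ℝ))) := by push_cast; field_simp
      _ ≤ _ := mul_le_mul_of_nonneg_left h4 ha'.le

lemma prod_zpow_sum {ι : Type} {b : ℝ} (hb : b ≠ 0) (s : Finset ι) (f : ι → ℤ) :
    ∏ x ∈ s, b ^ (f x) = b ^ (∑ x ∈ s, f x) := by
  classical
  induction s using Finset.induction_on with
  | empty => simp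
  | insert x s hx ih => rw [prod_insert hx, sum_insert hx, ih, zpow_add₀ hb]

/-- product of the sizes of `r` disjoint sets -/
lemma prod_le {C : Type} [Fintype C] (N : C → ℕ) (a c : ℕ) (ha : 0 < a)
    (hac : a * Fintype.card C ≤ c) (hN : ∑ x, N x ≤ c) :
    ∏ x, (N x : ℝ) ≤ (a : ℝ) ^ Fintype.card C * (1 + 1 / (a : ℝ)) ^ (c - a * Fintype.card C) := by
  have ha' : (0 : ℝ) < a := by exact_mod_cast ha
  have hb : (1 : ℝ) ≤ 1 + 1 / (a : ℝ) := by
    have : (0 : ℝ) ≤ 1 / (a : ℝ) := by positivity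
    linarith
  calc ∏ x, (N x : ℝ) ≤ ∏ x, (a * (1 + 1 / (a : ℝ)) ^ ((N x : ℤ) - a)) :=
        Finset.prod_le_prod (fun x _ => Nat.cast_nonneg _) (fun x _ => nat_le_pow a (N x) ha)
    _ = (a : ℝ) ^ Fintype.card C * (1 + 1 / (a : ℝ)) ^ (∑ x, ((N x : ℤ) - a)) := by
        rw [Finset.prod_mul_distrib, Finset.prod_const, Finset.card_univ]
        congr 1
        have hne : (1 + 1 / (a : ℝ)) ≠ 0 := by positivity
        exact prod_zpow_sum hne _ _
    _ ≤ _ := by
        apply mul_le_mul_of_nonneg_left _ (by positivity)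
        rw [← zpow_natCast]
        apply zpow_le_zpow_right₀ hb
        rw [Finset.sum_sub_distrib, Finset.sum_const, Finset.card_univ, Nat.cast_sub hac]
        have : ((∑ x, N x : ℕ) : ℤ) ≤ (c : ℤ) := by exact_mod_cast hN
        push_cast at this ⊢
        simp only [nsmul_eq_mul]
        linarith [mul_comm (Fintype.card C : ℤ) (a : ℤ)]

section count

variable {C F : Type} [Fintype C] [Fintype F] [DecidableEq C] [Nonempty F] {c : ℕ}

/-- codes -/
abbrev Code (C : Type) (c : ℕ) : Type :=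
  Σ g : C ↪ Fin c, ({w : Fin c // w ∉ Set.range g} → Option C)

open Classical in
/-- the colour set of a class -/
noncomputable def SS (k : Code C c) (x : C) : Finset (Fin c) :=
  insert (k.1 x) (univ.filter (fun w => ∃ h : w ∉ Set.range k.1, k.2 ⟨w, h⟩ = some x))

lemma SS_disj (k : Code C c) {x y : C} (hxy : x ≠ y) : Disjoint (SS k x) (SS k y) := by
  classical
  rw [Finset.disjoint_left]
  intro w hw hw'
  simp only [SS, mem_insert, mem_filter, mem_univ, true_and] at hw hw'
  rcases hw with rfl | ⟨h, h1⟩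
  · rcases hw' with h2 | ⟨h, _⟩
    · exact hxy (k.1.injective h2)
    · exact h ⟨x, rfl⟩
  · rcases hw' with rfl | ⟨h', h2⟩
    · exact h ⟨y, rfl⟩
    · rw [h1] at h2
      exact hxy (Option.some_injective _ h2)

lemma sum_SS (k : Code C c) : ∑ x, (SS k x).card ≤ c := by
  classical
  rw [← Finset.card_biUnion (fun x _ y _ h => SS_disj k h)]
  exact (Finset.card_le_univ _).trans (by simp)

lemma exists_code (ψ : C × F → Fin c) (hψ : Good ψ) :
    ∃ k : Code C c, ∀ x s, ψ (x, s) ∈ SS k x := by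
  classical
  obtain ⟨s0⟩ := (inferInstance : Nonempty F)
  let g : C ↪ Fin c := ⟨fun x => ψ (x, s0), by
    intro x y h
    by_contra hxy
    exact hψ (x, s0) (y, s0) hxy h⟩
  refine ⟨⟨g, fun w => if h : ∃ x s, ψ (x, s) = w.1 then some h.choose else none⟩, ?_⟩
  intro x s
  simp only [SS, mem_insert, mem_filter, mem_univ, true_and]
  by_cases hr : ψ (x, s) ∈ Set.range g
  · left
    obtain ⟨y, hy⟩ := hr
    by_cases hxy : x = y
    · subst hxy; exact hy.symm
    · exact absurd hy.symm (hψ (x, s) (y, s0) hxy)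
  · right
    refine ⟨hr, ?_⟩
    have h : ∃ x' s', ψ (x', s') = ψ (x, s) := ⟨x, s, rfl⟩
    rw [dif_pos h]
    congr 1
    obtain ⟨s', hs'⟩ := h.choose_spec
    by_contra hne
    exact hψ (h.choose, s') (x, s) hne hs'

lemma card_code (hC : Fintype.card C ≤ c) : Nat.card (Code C c) =
    c.descFactorial (Fintype.card C) * (Fintype.card C + 1) ^ (c - Fintype.card C) := by
  classical
  have h1 : ∀ g : C ↪ Fin c, Fintype.card ({w : Fin c // w ∉ Set.range g} → Option C) =
      (Fintype.card C + 1) ^ (c - Fintype.card C) := by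
    intro g
    rw [Fintype.card_fun, Fintype.card_option]
    congr 1
    rw [Fintype.card_subtype_compl, Fintype.card_fin]
    congr 1
    rw [← Set.card_range_of_injective g.injective]
  rw [Nat.card_eq_fintype_card, Fintype.card_sigma, Finset.sum_congr rfl (fun g _ => h1 g),
    Finset.sum_const, Finset.card_univ, Fintype.card_embedding_eq, Fintype.card_fin, smul_eq_mul]

theorem good_upper_gen (a : ℕ) (ha : 0 < a) (hC : Fintype.card C ≤ c)
    (hac : a * Fintype.card C ≤ c) :
    (Nat.card {ψ : C × F → Fin c // Good ψ} : ℝ) ≤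
      (c.descFactorial (Fintype.card C) : ℝ) * (Fintype.card C + 1 : ℝ) ^ (c - Fintype.card C) *
        ((a : ℝ) ^ Fintype.card C * (1 + 1 / (a : ℝ)) ^ (c - a * Fintype.card C)) ^
          Fintype.card F := by
  classical
  set L : ℝ := (a : ℝ) ^ Fintype.card C * (1 + 1 / (a : ℝ)) ^ (c - a * Fintype.card C) with hL
  have hL0 : 0 ≤ L := by positivity
  choose enc henc using (fun ψ : {ψ : C × F → Fin c // Good ψ} => exists_code ψ.1 ψ.2)
  -- map to a sigma type
  let Φ : {ψ : C × F → Fin c // Good ψ} → Σ k : Code C c, (∀ e : C × F, {w // w ∈ SS k e.1}) :=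
    fun ψ => ⟨enc ψ, fun e => ⟨ψ.1 e, henc ψ e.1 e.2⟩⟩
  have hΦ : Function.Injective Φ := by
    intro ψ φ h
    apply Subtype.ext
    funext e
    have h1 : ∀ (z z' : Σ k : Code C c, (∀ e : C × F, {w // w ∈ SS k e.1})), z = z' →
        (z.2 e).1 = (z'.2 e).1 := by rintro z _ rfl; rfl
    exact h1 _ _ h
  have h2 : Nat.card {ψ : C × F → Fin c // Good ψ} ≤
      ∑ k : Code C c, ∏ e : C × F, (SS k e.1).card := by
    refine (Nat.card_le_card_of_injective Φ hΦ).trans (le_of_eq ?_)
    rw [Nat.card_eq_fintype_card, Fintype.card_sigma]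
    apply Finset.sum_congr rfl
    intro k _
    rw [Fintype.card_pi]
    apply Finset.prod_congr rfl
    intro e _
    rw [Fintype.card_coe]
  have h3 : ∀ k : Code C c, ((∏ e : C × F, (SS k e.1).card : ℕ) : ℝ) ≤ L ^ Fintype.card F := by
    intro k
    rw [Nat.cast_prod, ← Finset.univ_product_univ, Finset.prod_product_right]
    simp only [Finset.prod_const, Finset.card_univ]
    apply pow_le_pow_left₀ (Finset.prod_nonneg (fun _ _ => Nat.cast_nonneg _))
    exact prod_le (fun x => (SS k x).card) a c ha hac (sum_SS k)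
  calc (Nat.card {ψ : C × F → Fin c // Good ψ} : ℝ)
      ≤ ((∑ k : Code C c, ∏ e : C × F, (SS k e.1).card : ℕ) : ℝ) := by exact_mod_cast h2
    _ = ∑ k : Code C c, ((∏ e : C × F, (SS k e.1).card : ℕ) : ℝ) := by push_cast; rfl
    _ ≤ ∑ k : Code C c, L ^ Fintype.card F := Finset.sum_le_sum (fun k _ => h3 k)
    _ = (Nat.card (Code C c) : ℝ) * L ^ Fintype.card F := by
        rw [Finset.sum_const, Finset.card_univ, nsmul_eq_mul, Nat.card_eq_fintype_card]
    _ = _ := by
        rw [card_code hC]; push_cast; ring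

end count

end Pool.Agent.KS6_44.RB
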